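import Mathlib

/-! Right-angled Coxeter groups on flag no-square triangulations of the 2-sphere (reflection groups
of compact right-angled hyperbolic polyhedra). -/

namespace Pool.Agent.MP_df844f_gt.RA

variable {S : Type} (G : SimpleGraph S)

/-- The clique complex of `G` is a triangulated 2-sphere (a connected closed surface of Euler
characteristic 2) and `G` has no induced 4-cycle. -/
structure Sphere : Prop where
  conn : G.Connected
  free4 : G.CliqueFree 4
  two : ∀ s t, G.Adj s t → (G.commonNeighbors s t).ncard = 2
  link : ∀ s, (G.induce (G.neighborSet s)).Connected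
  euler : Nat.card S + (G.cliqueSet 3).ncard = G.edgeSet.ncard + 2
  nosq : ∀ s t u v, G.Adj s t → G.Adj t u → G.Adj u v → G.Adj v s → s ≠ u → t ≠ v →
    G.Adj s u ∨ G.Adj t v

open Classical in
/-- The right-angled Coxeter matrix: 2 on edges, 0 (= infinity) on non-edges. -/
noncomputable def cox : CoxeterMatrix S where
  M := Matrix.of fun s t => if s = t then 1 else if G.Adj s t then 2 else 0
  isSymm := Matrix.IsSymm.ext fun s t => by simp only [Matrix.of_apply, eq_comm, G.adj_comm]
  diagonal := fun s => by simp
  off_diagonal := fun s t h => by
    simp only [Matrix.of_apply, if_neg h]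
    split_ifs <;> simp

/-- The right-angled Coxeter group of `G`. -/
abbrev RACG : Type := (cox G).Group

/-- Generators. -/
noncomputable def gen (s : S) : RACG G := (cox G).toCoxeterSystem.simple s

/-- Word length. -/
noncomputable def wlen (w : RACG G) : ℕ := (cox G).toCoxeterSystem.length w

instance fgR [Finite S] : Group.FG (RACG G) :=
  Group.fg_iff.2 ⟨_, (cox G).toCoxeterSystem.subgroup_closure_range_simple, Set.finite_range _⟩

end Pool.Agent.MP_df844f_gt.RA
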